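import Pool.Agent.H26.GC.Main

/-!
# GCNF simulates resolution quasi-polynomially
-/

set_option autoImplicit false

open Pool.Agent.H26.GC

namespace Pool.Agent.Results.MP_3d79cc_lc.QuasiPolySimulation

/-- From every resolution refutation of `Γ` with `s` clauses and depth less than `d` one gets a
(dag) GCNF refutation of `Γ`, without the permutation rule, of quasi-polynomial size. -/
theorem result :
    ∀ (V : Type) [DecidableEq V] (Γ : Cedent V), (∅ : Clause V) ∉ Γ →
      ∀ (s d : ℕ) (ρ : RRef Γ s), (∀ i, ρ.h i < d) →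
        ∃ π : List (Cedent V), GRef Γ π ∧
          π.length ≤ 4 * (s + 1) ^ Nat.clog 2 d + 1 ∧
          gsize π ≤ 20 * (s + 1) ^ (2 * Nat.clog 2 d) * csize Γ ^ 2 := by
  intro V _ Γ hΓ s d ρ hd
  exact sim_size Γ hΓ ρ hd

end Pool.Agent.Results.MP_3d79cc_lc.QuasiPolySimulation
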